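import Pool.Agent.H23.LC.Targets
import Pool.Agent.H87.HK.YC

/-!
# Measurability and invariance of the counting functions
-/

set_option autoImplicit false

open NumberField NumberField.InfinitePlace NumberField.Units
  NumberField.Units.dirichletUnitTheorem MeasureTheory Set Filter Complex
open scoped nonZeroDivisors ENNReal

namespace Pool.Agent.H91.GLB

open Pool.Agent.H25.HK Pool.Agent.H23.LB Pool.Agent.H23.LC
open Pool.Agent.H28.RC (Rep ft idl)

section NF

set_option linter.unusedSectionVars false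

variable {K : Type} [Field K] [NumberField K]

lemma countable_K : Countable K :=
  (Module.finBasis ℚ K).equivFun.toEquiv.injective.countable

lemma yM_add (M : FI K) (τ : ℝ) (z : logSpace K) (u : (𝓞 K)ˣ) (v : InfinitePlace K) :
    yM K M τ (z + logEmbedding K (Additive.ofMul u)) v =
      yM K M τ z v + 2 * Real.log (v (u : K)) :=
  (Pool.Agent.H87.HK.yc_main K).2.2.1 _ z u v

lemma continuous_yc : Continuous (fun p : ℝ × logSpace K => yc K p.1 p.2) :=
  (Pool.Agent.H87.HK.yc_main K).2.2.2.2.1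

lemma measurable_yM {α : Type} [MeasurableSpace α] (M : FI K) (v : InfinitePlace K)
    {t : α → ℝ} {z : α → logSpace K} (ht : Measurable t) (hz : Measurable z) :
    Measurable (fun p : α => yM K M (t p) (z p) v) := by
  have h : Continuous (fun p : ℝ × logSpace K => yc K p.1 p.2 v) :=
    (continuous_apply v).comp continuous_yc
  exact h.measurable.comp ((ht.sub_const _).prodMk hz)

lemma measurable_an (v : InfinitePlace K) : Measurable (fun t : ℝ => an v t) := by
  unfold an
  by_cases hv : v.IsReal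
  · simp only [if_pos hv]
    exact Measurable.ite measurableSet_Iio measurable_const measurable_const
  · simp only [if_neg hv]
    exact (Continuous.cexp (by fun_prop)).measurable

lemma measurable_cnt {α : Type} [MeasurableSpace α] {S : K → Prop} {P : K → α → Prop}
    [∀ x p, Decidable (P x p)] (h : ∀ x, MeasurableSet {p | P x p}) :
    Measurable (fun p : α => ∑' x : {x : K // S x}, if P x.1 p then (1 : ℝ≥0∞) else 0) := by
  have : Countable K := countable_K
  refine Measurable.tsum fun x => ?_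
  exact Measurable.ite (h x.1) measurable_const measurable_const

lemma measurable_NB (δ : ℝ) (L : FI K) {α : Type} [MeasurableSpace α] {y : α → InfinitePlace K → ℝ}
    (hy : ∀ v, Measurable fun p => y p v) : Measurable (fun p : α => NB δ L (y p)) := by
  unfold NB
  refine measurable_cnt (S := fun h => h ∈ L)
    (P := fun h p => ∀ v : InfinitePlace K, v h * Real.exp (y p v / 2) ≤ δ) fun x => ?_
  simp only [Set.ofPred_forall]
  refine MeasurableSet.iInter fun v => ?_
  exact measurableSet_le (((hy v).div_const 2).exp.const_mul _) measurable_const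

lemma measurable_NT (δ Y : ℝ) (M : FI K) {α : Type} [MeasurableSpace α]
    {t : α → ℝ} {z : α → logSpace K} (ht : Measurable t) (hz : Measurable z) :
    Measurable (fun p : α => NT δ Y M (t p) (z p)) := by
  classical
  unfold NT
  refine measurable_cnt (S := fun x => Bl Y M x)
    (P := fun x p => Bt δ x (yM K M (t p) (z p))) fun x => ?_
  unfold Bt
  simp only [Set.ofPred_forall]
  refine MeasurableSet.iInter fun v => ?_
  exact measurableSet_le ((((measurable_yM M v ht hz).div_const 2).const_add _).abs)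
    measurable_const

lemma measurable_NP (δ Y : ℝ) (M : FI K) {α : Type} [MeasurableSpace α]
    {t : α → ℝ} {z : α → logSpace K} {θ : α → InfinitePlace K → ℝ}
    (ht : Measurable t) (hz : Measurable z) (hθ : Measurable θ) :
    Measurable (fun p : α => NP δ Y M (t p) (z p) (θ p)) := by
  classical
  unfold NP
  refine measurable_cnt (S := fun x => Bl Y M x)
    (P := fun x p => Bp δ x (yM K M (t p) (z p)) (θ p)) fun x => ?_
  unfold Bp
  simp only [Set.ofPred_forall]
  refine MeasurableSet.iInter fun v => ?_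
  have h1 : Measurable fun p => an v (θ p v) :=
    (measurable_an v).comp ((measurable_pi_apply v).comp hθ)
  have h2 : Measurable fun p => ((Real.exp (yM K M (t p) (z p) v / 2) : ℝ) : ℂ) :=
    Complex.measurable_ofReal.comp ((measurable_yM M v ht hz).div_const 2).exp
  exact measurableSet_le (((h2.const_mul _).mul h1).sub_const 1).norm measurable_const

lemma measurable_ND (δ Y : ℝ) (M : FI K) {α : Type} [MeasurableSpace α]
    {t : α → ℝ} {z : α → logSpace K} {θ : α → InfinitePlace K → ℝ}
    (ht : Measurable t) (hz : Measurable z) (hθ : Measurable θ) :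
    Measurable (fun p : α => ND δ Y M (t p) (z p) (θ p)) := by
  classical
  unfold ND
  refine measurable_cnt (S := fun x => Bl Y M x)
    (P := fun x p => Bd δ x (yM K M (t p) (z p)) (θ p)) fun x => ?_
  unfold Bd
  simp only [Set.ofPred_forall]
  refine MeasurableSet.iInter fun v => ?_
  have h1 : Measurable fun p => (starRingEnd ℂ) (an v (θ p v)) :=
    (Complex.continuous_conj.measurable).comp
      ((measurable_an v).comp ((measurable_pi_apply v).comp hθ))
  have h2 : Measurable fun p => ((Real.exp (yM K M (t p) (z p) v / 2) : ℝ) : ℂ) :=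
    Complex.measurable_ofReal.comp ((measurable_yM M v ht hz).div_const 2).exp
  exact measurableSet_le (((h2.const_mul _).mul h1).sub_const 1).norm measurable_const

/-! ### Units -/

lemma unit_ne (u : (𝓞 K)ˣ) : ((u : 𝓞 K) : K) ≠ 0 := by
  simp

lemma mul_mem_iff (L : FI K) (u : (𝓞 K)ˣ) (x : K) : ((u : 𝓞 K) : K) * x ∈ L ↔ x ∈ L := by
  have key : ∀ (w : (𝓞 K)ˣ) (y : K), y ∈ L → ((w : 𝓞 K) : K) * y ∈ L := by
    intro w y hy
    have := L.coeToSubmodule.smul_mem (w : 𝓞 K) hy
    rwa [Algebra.smul_def] at this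
  refine ⟨fun h => ?_, key u x⟩
  have h2 := key u⁻¹ _ h
  rw [← mul_assoc, ← map_mul] at h2
  simpa using h2

lemma span_unit (u : (𝓞 K)ˣ) (x : K) :
    FractionalIdeal.spanSingleton (𝓞 K)⁰ (((u : 𝓞 K) : K) * x) =
      FractionalIdeal.spanSingleton (𝓞 K)⁰ x := by
  apply FractionalIdeal.ext
  intro y
  rw [FractionalIdeal.mem_spanSingleton, FractionalIdeal.mem_spanSingleton]
  constructor
  · rintro ⟨a, rfl⟩
    refine ⟨a * u, ?_⟩
    simp only [Algebra.smul_def, map_mul]
    ring
  · rintro ⟨a, rfl⟩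
    refine ⟨a * ((u⁻¹ : (𝓞 K)ˣ) : 𝓞 K), ?_⟩
    simp only [Algebra.smul_def, map_mul]
    have h : (algebraMap (𝓞 K) K) ((u⁻¹ : (𝓞 K)ˣ) : 𝓞 K) * (algebraMap (𝓞 K) K) (u : 𝓞 K) = 1 := by
      rw [← map_mul]
      simp
    linear_combination (algebraMap (𝓞 K) K a) * x * h

lemma idl_unit (M : FI K) (u : (𝓞 K)ˣ) (x : K) :
    idl K M (((u : 𝓞 K) : K) * x) = idl K M x := by
  unfold idl
  rw [span_unit]

lemma Bl_unit (Y : ℝ) (M : FI K) (u : (𝓞 K)ˣ) (x : K) :
    Bl Y M (((u : 𝓞 K) : K) * x) ↔ Bl Y M x := by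
  unfold Bl
  rw [idl_unit, mul_mem_iff]
  simp

/-- multiplication by a unit on a stable subset -/
noncomputable def uEquiv (u : (𝓞 K)ˣ) {S : K → Prop}
    (hS : ∀ (w : (𝓞 K)ˣ) (x : K), S (((w : 𝓞 K) : K) * x) ↔ S x) :
    {x : K // S x} ≃ {x : K // S x} where
  toFun x := ⟨((u : 𝓞 K) : K) * x.1, (hS u x.1).2 x.2⟩
  invFun x := ⟨(((u⁻¹ : (𝓞 K)ˣ) : 𝓞 K) : K) * x.1, (hS u⁻¹ x.1).2 x.2⟩
  left_inv x := by
    apply Subtype.ext
    simp only
    rw [← mul_assoc, ← map_mul]
    simp
  right_inv x := by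
    apply Subtype.ext
    simp only
    rw [← mul_assoc, ← map_mul]
    simp

lemma place_pos (u : (𝓞 K)ˣ) (v : InfinitePlace K) : 0 < v ((u : 𝓞 K) : K) :=
  InfinitePlace.pos_iff.2 (unit_ne u)

lemma NT_unit (δ Y : ℝ) (M : FI K) (τ : ℝ) (z : logSpace K) (u : (𝓞 K)ˣ) :
    NT δ Y M τ (z + logEmbedding K (Additive.ofMul u)) = NT δ Y M τ z := by
  classical
  unfold NT
  rw [← (uEquiv u (S := fun x => Bl Y M x) (fun w x => Bl_unit Y M w x)).tsum_eq
    (fun x => if Bt δ x.1 (yM K M τ z) then (1 : ℝ≥0∞) else 0)]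
  refine tsum_congr fun x => ?_
  refine if_congr ?_ rfl rfl
  unfold Bt
  refine forall_congr' fun v => ?_
  have hx : x.1 ≠ 0 := x.2.2.1
  have h1 : 0 < v x.1 := InfinitePlace.pos_iff.2 hx
  have h2 : ((uEquiv u (S := fun x => Bl Y M x) (fun w x => Bl_unit Y M w x)) x).1 =
    ((u : 𝓞 K) : K) * x.1 := rfl
  rw [h2, yM_add, map_mul, Real.log_mul (place_pos u v).ne' h1.ne']
  have h3 : Real.log (v x.1) + (yM K M τ z v + 2 * Real.log (v ((u : 𝓞 K) : K))) / 2 =
    Real.log (v ((u : 𝓞 K) : K)) + Real.log (v x.1) + yM K M τ z v / 2 := by ring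
  rw [h3]

lemma NB_unit (δ : ℝ) (L M : FI K) (τ : ℝ) (z : logSpace K) (u : (𝓞 K)ˣ) :
    NB δ L (yM K M τ (z + logEmbedding K (Additive.ofMul u))) = NB δ L (yM K M τ z) := by
  classical
  unfold NB
  rw [← (uEquiv u (S := fun x => x ∈ L) (fun w x => mul_mem_iff L w x)).tsum_eq
    (fun h => if ∀ v : InfinitePlace K, v h.1 * Real.exp (yM K M τ z v / 2) ≤ δ
      then (1 : ℝ≥0∞) else 0)]
  refine tsum_congr fun x => ?_
  refine if_congr ?_ rfl rfl
  refine forall_congr' fun v => ?_
  have h2 : ((uEquiv u (S := fun x => x ∈ L) (fun w x => mul_mem_iff L w x)) x).1 =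
    ((u : 𝓞 K) : K) * x.1 := rfl
  rw [h2, yM_add, map_mul]
  have h3 : Real.exp ((yM K M τ z v + 2 * Real.log (v ((u : 𝓞 K) : K))) / 2) =
      Real.exp (yM K M τ z v / 2) * v ((u : 𝓞 K) : K) := by
    rw [show (yM K M τ z v + 2 * Real.log (v ((u : 𝓞 K) : K))) / 2 =
      yM K M τ z v / 2 + Real.log (v ((u : 𝓞 K) : K)) by ring, Real.exp_add,
      Real.exp_log (place_pos u v)]
  rw [h3]
  have h4 : v x.1 * (Real.exp (yM K M τ z v / 2) * v ((u : 𝓞 K) : K)) =
    v ((u : 𝓞 K) : K) * v x.1 * Real.exp (yM K M τ z v / 2) := by ring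
  rw [h4]

end NF

theorem pf_CI : U_CI := by
  intro K _ _ L M δ Y _ _ _ _
  refine ⟨?_, ?_, ?_, ?_⟩
  · exact (measurable_NT δ Y M measurable_snd measurable_fst).mul
      (measurable_NB δ L fun v => measurable_yM M v measurable_snd measurable_fst)
  · exact (measurable_NP δ Y M (measurable_fst.comp measurable_snd) measurable_fst
      (measurable_snd.comp measurable_snd)).mul
      (measurable_NB δ L fun v => measurable_yM M v (measurable_fst.comp measurable_snd)
        measurable_fst)
  · exact (measurable_ND δ Y M (measurable_fst.comp measurable_snd) measurable_fst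
      (measurable_snd.comp measurable_snd)).mul
      (measurable_NB δ L fun v => measurable_yM M v (measurable_fst.comp measurable_snd)
        measurable_fst)
  · intro τ z l hl
    obtain ⟨u, rfl⟩ : ∃ u : (𝓞 K)ˣ, logEmbedding K (Additive.ofMul u) = l := by
      obtain ⟨w, _, hw⟩ := hl
      exact ⟨w.toMul, hw⟩
    exact ⟨NT_unit δ Y M τ z u, NB_unit δ L M τ z u⟩

end Pool.Agent.H91.GLB
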